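import Pool.Agent.H70.EP.Targets

/-!
# EP module BL3: the oracle with the answers of the universal NP machine
-/

set_option autoImplicit false

namespace Pool.Agent.H81.EP.BL3

open Pool.Agent.H6.NB Pool.Agent.H70.EP

theorem acc_congr (h1 : T_EVC) {prog : List Bool → List Bool → DT} (hs : Small prog)
    {s : List Bool} {O O' : List Bool → Bool} (h : ∀ w, w.length ≤ s.length → O w = O' w) :
    acc prog s O ↔ acc prog s O' := by
  unfold acc
  refine exists_congr (fun w => and_congr_right (fun hw => ?_))
  obtain ⟨_, m, hm, hsh⟩ := hs s w hw
  have hm' : m ≤ s.length := by nlinarith [Nat.zero_le m]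
  rw [h1 _ m O O' hsh (fun w' hw' => h w' (by omega))]

open Classical in
/-- the operator whose fixed point is the oracle -/
noncomputable def Phi (prog : List Bool → List Bool → DT) (σ O : List Bool → Bool) :
    List Bool → Bool
  | false :: s => decide (acc prog s O)
  | [] => σ []
  | true :: s => σ (true :: s)

theorem Phi_congr (h1 : T_EVC) {prog : List Bool → List Bool → DT} (hs : Small prog)
    {σ O O' : List Bool → Bool} {w : List Bool}
    (h : ∀ w', w'.length < w.length → O w' = O' w') : Phi prog σ O w = Phi prog σ O' w := by
  match w, h with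
  | false :: s, h =>
    simp only [Phi]
    rw [decide_eq_decide]
    refine acc_congr h1 hs (fun w' hw' => h w' ?_)
    simp only [List.length_cons]
    omega
  | [], _ => rfl
  | true :: s, _ => rfl

theorem bl3 (h1 : Pool.Agent.H6.NB.T_EVC) : T_BL3 := by
  intro prog hs σ
  set It : ℕ → List Bool → Bool := fun k => (Phi prog σ)^[k] σ with hIt
  have hstep : ∀ k, It (k + 1) = Phi prog σ (It k) := by
    intro k
    rw [hIt]
    exact Function.iterate_succ_apply' _ _ _
  have hst : ∀ k w, w.length < k → ∀ k', k ≤ k' → It k' w = It k w := by
    intro k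
    induction k with
    | zero => intro w hw; omega
    | succ k ih =>
      intro w hw k' hk'
      obtain ⟨k'', rfl⟩ : ∃ k'', k' = k'' + 1 := ⟨k' - 1, by omega⟩
      rw [hstep, hstep]
      exact Phi_congr h1 hs (fun w' hw' => ih w' (by omega) k'' (by omega))
  have hfix : ∀ w, It (w.length + 1) w = Phi prog σ (fun w => It (w.length + 1) w) w := by
    intro w
    rw [hstep]
    refine Phi_congr h1 hs (fun w' hw' => ?_)
    exact hst (w'.length + 1) w' (by omega) w.length (by omega)
  refine ⟨fun w => It (w.length + 1) w, fun s => ?_, fun w hw => ?_⟩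
  · have h := hfix (false :: s)
    change It ((false :: s).length + 1) (false :: s) = true ↔ _
    rw [h]
    simp only [Phi, decide_eq_true_eq]
  · simp only
    rw [hfix w]
    match w, hw with
    | false :: s, hw => exact absurd rfl (hw s)
    | [], _ => rfl
    | true :: s, _ => rfl

end Pool.Agent.H81.EP.BL3
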